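import Mathlib
import Pool.Agent.H40.Topo

/-!
# Matchings of tight families of planar convex bodies

We answer the question positively: with `f n = max 3 ((n + 10) / 4)` (rounded down), every family
of `n` planar convex bodies, `n` even and at least 4, in which every `f n`-tuple is tight, has a
perfect matching whose pair hulls have a common point.
-/

namespace Pool.Agent.Results.MP_e1ee93_co.TightMatching

/-- The Euclidean plane. -/
abbrev Plane := EuclideanSpace ℝ (Fin 2)

/-- A planar convex body: a compact convex set with nonempty interior. -/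
def IsBody (K : Set Plane) : Prop :=
  IsCompact K ∧ Convex ℝ K ∧ (interior K).Nonempty

/-- The subfamily of `A` indexed by `s` is tight: the union of the sets `conv (A i ∪ A j)` over
all `i < j` in `s` is convex. -/
def IsTight {n : ℕ} (A : Fin n → Set Plane) (s : Finset (Fin n)) : Prop :=
  Convex ℝ (⋃ i ∈ s, ⋃ j ∈ s, ⋃ _ : i < j, convexHull ℝ (A i ∪ A j))

/-- `f` is admissible: `3 ≤ f n ≤ n` for every even `n ≥ 4`, and `f` is non-decreasing and
unbounded on the even numbers from 4 on. -/
def Admissible (f : ℕ → ℕ) : Prop :=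
  (∀ n, 4 ≤ n → Even n → 3 ≤ f n ∧ f n ≤ n) ∧
  (∀ n n', 4 ≤ n → Even n → Even n' → n ≤ n' → f n ≤ f n') ∧
  (∀ b, ∃ N, ∀ n, N ≤ n → Even n → b ≤ f n)

/-- `M` is a matching of the index set: a partition of it into pairs. -/
def IsMatching {n : ℕ} (M : Finset (Finset (Fin n))) : Prop :=
  (∀ B ∈ M, B.card = 2) ∧ ∀ i : Fin n, ∃! B : Finset (Fin n), B ∈ M ∧ i ∈ B

lemma tight_of_isTight {n : ℕ} {A : Fin n → Set Plane} {s : Finset (Fin n)} (h : IsTight A s) :
    H40Tight.Tight A s := by
  unfold IsTight at h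
  unfold H40Tight.Tight
  convert h using 1
  ext x
  simp only [Set.mem_ofPred_eq, Set.mem_iUnion, exists_prop]
  constructor
  · rintro ⟨i, hi, j, hj, hij, hx⟩
    rcases lt_or_gt_of_ne hij with h' | h'
    · exact ⟨i, hi, j, hj, h', hx⟩
    · exact ⟨j, hj, i, hi, h', by rw [Set.union_comm]; exact hx⟩
  · rintro ⟨i, hi, j, hj, hij, hx⟩
    exact ⟨i, hi, j, hj, hij.ne, hx⟩

/-- There is an admissible function `f`, namely `f n = max 3 ((n + 10) / 4)` rounded down, such that
every family of `n` planar convex bodies (`n ≥ 4` even) in which every `f n`-tuple is tight has a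
matching whose pair hulls have a common point. -/
theorem result :
    ∃ f : ℕ → ℕ, Admissible f ∧ (∀ n, f n = max 3 ((n + 10) / 4)) ∧
      ∀ n, 4 ≤ n → Even n → ∀ A : Fin n → Set Plane, (∀ i, IsBody (A i)) →
        (∀ s : Finset (Fin n), s.card = f n → IsTight A s) →
        ∃ M : Finset (Finset (Fin n)), IsMatching M ∧
          (⋂ B ∈ M, convexHull ℝ (⋃ i ∈ B, A i)).Nonempty := by
  refine ⟨fun n => max 3 ((n + 10) / 4), ⟨?_, ?_, ?_⟩, fun _ => rfl, ?_⟩
  · intro n hn _
    show 3 ≤ max 3 ((n + 10) / 4) ∧ max 3 ((n + 10) / 4) ≤ n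
    omega
  · intro n n' _ _ _ h
    show max 3 ((n + 10) / 4) ≤ max 3 ((n' + 10) / 4)
    omega
  · intro b
    refine ⟨4 * b, fun n hn _ => ?_⟩
    show b ≤ max 3 ((n + 10) / 4)
    omega
  · intro n hn heven A hA hT
    have hT' : ∀ s : Finset (Fin n), s.card = max 3 ((n + 10) / 4) → IsTight A s := hT
    have : Nonempty (Fin n) := ⟨⟨0, by omega⟩⟩
    have hcard : Fintype.card (Fin n) = n := Fintype.card_fin n
    obtain ⟨p, τ, hτ⟩ := H40Tight.main (V := Fin n) (A := A) (fun i => (hA i).2.1)
      (fun i => (hA i).2.2.mono interior_subset) (fun i => (hA i).1)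
      (by rw [hcard]; exact heven) (m := max 3 ((n + 10) / 4)) (by omega)
      (by rw [hcard]; omega) (by rw [hcard]; omega)
      (fun s hs => tight_of_isTight (hT' s hs))
    refine ⟨Finset.univ.image (fun i => {i, τ i}), ⟨?_, ?_⟩, ⟨p, ?_⟩⟩
    · intro B hB
      rw [Finset.mem_image] at hB
      obtain ⟨i, -, rfl⟩ := hB
      exact Finset.card_pair (hτ i).2.1.symm
    · intro i
      refine ⟨{i, τ i}, ⟨Finset.mem_image.2 ⟨i, Finset.mem_univ _, rfl⟩, by simp⟩, ?_⟩
      rintro B ⟨hB, hi⟩
      rw [Finset.mem_image] at hB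
      obtain ⟨j, -, rfl⟩ := hB
      rw [Finset.mem_insert, Finset.mem_singleton] at hi
      rcases hi with rfl | rfl
      · rfl
      · rw [(hτ j).1, Finset.pair_comm]
    · simp only [Set.mem_iInter]
      intro B hB
      rw [Finset.mem_image] at hB
      obtain ⟨i, -, rfl⟩ := hB
      have h1 : (⋃ k ∈ ({i, τ i} : Finset (Fin n)), A k) = A i ∪ A (τ i) := by
        ext x
        simp
      rw [h1]
      exact (hτ i).2.2

end Pool.Agent.Results.MP_e1ee93_co.TightMatching
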